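import Pool.Agent.Helper43_HAM.Stmts

set_option autoImplicit false

namespace Pool.Agent.HAM.H20

open Pool.Agent.HAM
open Pool.Agent.Common_CookLevin (CNF LLit formula pad encodeCNF CNFLetter tev eachWord)

/-- clauses with two positive literals -/
def Two (F : CNF) : Prop := ∀ C ∈ F, ∃ i j : ℕ, C = [(i, true), (j, true)]

theorem two_tev (T : List (List LLit)) (hT : TwoPos T) (p m M : ℕ) : Two (tev p m M T) := by
  intro C hC
  unfold tev at hC
  rw [List.mem_map] at hC
  obtain ⟨C', hC', rfl⟩ := hC
  obtain ⟨x, y, rfl, hx, hy⟩ := hT C' hC'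
  refine ⟨(LLit.ev p m M x).1, (LLit.ev p m M y).1, ?_⟩
  simp [LLit.ev, hx, hy]

theorem two_nil : Two [] := by
  intro C hC
  simp at hC

theorem two_append {F G : CNF} (hF : Two F) (hG : Two G) : Two (F ++ G) := by
  intro C hC
  rcases List.mem_append.1 hC with h | h
  · exact hF C h
  · exact hG C h

theorem two_eachWord {B : Type} (c : B → Bool) (f : B → List B → CNF)
    (hf : ∀ a u, Two (f a u)) : ∀ (l u : List B), Two (eachWord c f u l) := by
  intro l
  induction l with
  | nil =>
    intro u
    exact two_nil
  | cons a l ih =>
    intro u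
    unfold eachWord
    exact two_append (hf a u) (ih _)

theorem gl_encode (F : CNF) (hF : Two F) : (encodeCNF F).map gl = encodeEdges (pairsOf F) := by
  induction F with
  | nil => rfl
  | cons C F ih =>
    obtain ⟨i, j, hC⟩ := hF C (by simp)
    have h1 := ih (fun C hC => hF C (by simp [hC]))
    unfold encodeCNF pairsOf encodeEdges at h1 ⊢
    rw [List.flatMap_cons, List.map_append, h1, List.map_cons (l := F), List.flatMap_cons (xs := List.map _ F), hC]
    congr 1
    simp [gl]

/-- ENC: formulas with two positive literals in each clause encode edge lists. -/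
theorem enc : EncStmt := by
  intro A hd atL atR h1 h2 h3 v
  apply gl_encode
  unfold formula
  refine two_append (two_tev hd h1 _ _ _) (two_append ?_ ?_)
  · apply two_eachWord
    intro a u
    rcases a with a | a
    · exact two_tev _ (h2 a) _ _ _
    · exact two_nil
  · apply two_eachWord
    intro a u
    rcases a with a | a
    · exact two_nil
    · exact two_tev _ h3 _ _ _

end Pool.Agent.HAM.H20
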