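import Pool.Agent.Helper43_HAM.Stmts

set_option autoImplicit false

namespace Pool.Agent.HAM.H20

open Pool.Agent.HAM

/-- TEQ: renaming of the outcomes. -/
theorem teq : TeqStmt := by
  intro Ω Ω' Ω'' _ _ _ _ _ _ π e U U' h
  obtain ⟨w, hr, hl, hw⟩ := h
  refine ⟨w, hr, by rw [List.length_map]; exact hl, ?_⟩
  intro F hF l r ω
  rw [hw F hF l r ω]
  symm
  rw [← Equiv.sum_comp e]
  apply Finset.sum_congr rfl
  intro x _
  simp only [Function.comp_apply, List.map_map]
  rfl

end Pool.Agent.HAM.H20
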